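import Pool.Agent.L7h56.JT.Main

/-!
# Continuity of Jones's set function T and indecomposability

`S` is a continuum: a compact connected Hausdorff space (no metric). For a set `A` of points,
`T A` is the set of the points `p` such that every subcontinuum `W` (nonempty closed connected
subset) with `p` in its interior meets `A`. `TN` is `T` as a map of the hyperspace of the nonempty
closed subsets (`NonemptyCompacts S`, which carries the Vietoris topology of Mathlib) to itself.
The empty set is an isolated point of the hyperspace of all closed subsets and `T ∅ = ∅`, so it
does not matter if it is included.

`Indecomposable S`: `S` is not the union of two proper subcontinua.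

`OpenDecomposition S`: any two of the sets `T {p}` are equal or disjoint, and the union of the sets
`T {p}`, `p ∈ O`, is open for every open set `O`.
-/

set_option autoImplicit false

namespace Pool.Agent.Results.MP_3a3191_gt.TNonemptyInterior

open Set Topology TopologicalSpace Pool.Agent.L7h56.JT

/-- The answer to Q1 is yes. Let `S` be a continuum.
1. If `T` is continuous for `S` and some `T {p}` has nonempty interior, then `S` is indecomposable.
2. It is enough that the map `p ↦ T {p}` is continuous. Then the sets `T {p}` are a decomposition
of `S` with open saturations, and if some `T {p}` has nonempty interior, then `T {q} = S` for all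
points `q`, and `S` is indecomposable. -/
theorem result (S : Type*) [TopologicalSpace S] [CompactSpace S] [T2Space S] [ConnectedSpace S] :
    (Continuous (TN : NonemptyCompacts S → NonemptyCompacts S) →
      (∃ p : S, (interior (T {p})).Nonempty) → Indecomposable S) ∧
    (Continuous (fun p : S => TN ({p} : NonemptyCompacts S)) →
      OpenDecomposition S ∧
      ((∃ p : S, (interior (T {p})).Nonempty) → (∀ q : S, T {q} = univ) ∧ Indecomposable S)) := by
  have key : Continuous (fun p : S => TN ({p} : NonemptyCompacts S)) →
      OpenDecomposition S ∧
      ((∃ p : S, (interior (T {p})).Nonempty) → (∀ q : S, T {q} = univ) ∧ Indecomposable S) := by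
    intro h
    have hl := lsc_of_continuous h
    refine ⟨dec_of_lsc hl, ?_⟩
    rintro ⟨p, hp⟩
    exact ⟨fun q => T_univ hl hp q, indec fun q => T_univ hl hp q⟩
  exact ⟨fun h hp => ((key (h.comp NonemptyCompacts.continuous_singleton)).2 hp).2, key⟩

end Pool.Agent.Results.MP_3a3191_gt.TNonemptyInterior
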